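import Pool.Agent.Helper992.DsD

set_option autoImplicit false
open scoped Classical

namespace Pool.Agent.Results.MP_111ca2_co.SquareOrder

/-- Let `K` be a finite field with `q` elements, let `n` be a divisor of `q - 1` with
`2 ≤ n < q - 1`, and let `K^n` be the set of non-zero `n`-th powers. If `K^n` is a difference set
in the additive group of `K` (every non-zero `g` is a difference `a - b` with `a, b ∈ K^n` in
exactly `l` ways), then `q` is odd, `(q - 1) / n` is odd, and `q` is not a perfect square. -/
theorem result (K : Type*) [Field K] [Fintype K] (n : ℕ)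
    (hn : n ∣ Fintype.card K - 1) (h2 : 2 ≤ n) (h3 : n < Fintype.card K - 1)
    (hD : ∃ l : ℕ, ∀ g : K, g ≠ 0 →
      (Finset.univ.filter (fun p : K × K =>
        ((∃ y : K, y ≠ 0 ∧ y ^ n = p.1) ∧ (∃ y : K, y ≠ 0 ∧ y ^ n = p.2)) ∧ p.1 - p.2 = g)).card
          = l) :
    Odd (Fintype.card K) ∧ Odd ((Fintype.card K - 1) / n) ∧ ¬ IsSquare (Fintype.card K) := by
  obtain ⟨k, hk⟩ := hn
  obtain ⟨l, hl⟩ := hD
  have hk1 : 1 < k := by
    rw [hk] at h3
    by_contra h
    have : k ≤ 1 := by omega
    have := Nat.mul_le_mul_left n this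
    omega
  have hq := Fintype.one_lt_card (α := K)
  set D := Finset.univ.filter (fun x : K => x ^ k = 1) with hDdef
  have hdiff : ∀ g : K, g ≠ 0 → ((D ×ˢ D).filter (fun p => p.1 - p.2 = g)).card = l := by
    intro g hg
    rw [← hl g hg]
    congr 1
    ext ⟨a, b⟩
    simp only [hDdef, Finset.mem_filter, Finset.mem_product, Finset.mem_univ, true_and,
      Pool.Agent.Helper992.Ds.mem_powers n k hk.symm]
  have hcard : D.card = k :=
    Pool.Agent.Helper992.Ds.card_roots k ⟨n, by rw [hk, mul_comm]⟩
  have hln : l * n + 1 = k := by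
    have h1 := Pool.Agent.Helper992.Ds.count_pairs D l hdiff
    rw [hcard] at h1
    have h4 : Fintype.card K = n * k + 1 := by omega
    rw [h4] at h1
    have h5 : k * k = k * (l * n + 1) := by nlinarith
    exact (Nat.eq_of_mul_eq_mul_left (by omega) h5).symm
  have hkdiv : (Fintype.card K - 1) / n = k := by
    rw [hk]; exact Nat.mul_div_cancel_left k (by omega)
  rw [hkdiv]
  have hkodd : Odd k := by
    by_contra hk2
    rw [Nat.not_odd_iff_even] at hk2
    exact Pool.Agent.Helper992.Ds.reversible n k l hk.symm h2 hk1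
      (fun x hx => by rw [hk2.neg_pow, hx]) hdiff hln
  have hqodd : Odd (Fintype.card K) := by
    by_contra hq2
    rw [Nat.not_odd_iff_even] at hq2
    have hc : ringChar K = 2 := FiniteField.even_card_iff_char_two.mpr (Nat.even_iff.mp hq2)
    haveI : CharP K 2 := by rw [← hc]; exact ringChar.charP K
    exact Pool.Agent.Helper992.Ds.reversible n k l hk.symm h2 hk1
      (fun x hx => by rw [CharTwo.neg_eq, hx]) hdiff hln
  refine ⟨hqodd, hkodd, ?_⟩
  rintro ⟨r, hr⟩
  rw [← sq] at hr
  have hrodd : Odd r := by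
    rw [hr] at hqodd
    exact Nat.Odd.of_mul_left (n := r) (by rwa [sq] at hqodd)
  exact Pool.Agent.Helper992.Ds.odd_case r n k l hr hrodd hk.symm h2 hk1 hkodd hdiff hln

end Pool.Agent.Results.MP_111ca2_co.SquareOrder
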